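import Pool.Agent.TH760.EN.Defs

/-! The small triangles for no point and for two points. -/

namespace Pool.Agent.TH760.EN

open Finset Pool.Agent.TH176.Nag Pool.Agent.TH603.Sur

theorem Emp_empty {ι : Type} (w : ι → ℕ) : Emp w (∅ : Set (ℤ × ℤ)) := by
  refine ⟨ℚ, inferInstance, inferInstance, fun _ => 1, fun _ => 1, fun _ => one_ne_zero,
    fun _ => one_ne_zero, fun f hf _ => ?_⟩
  rw [← Finsupp.support_eq_empty, Finset.eq_empty_iff_forall_notMem]
  intro m hm
  exact hf (mem_coe.2 hm)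

theorem he0 : HE 0 := by
  intro m
  refine (Emp_empty _).mono ?_
  rintro ⟨x, y⟩ ⟨h1, h2, h3⟩
  simp at h1 h3
  omega

theorem hs0 : HS 0 := by
  intro m
  refine ⟨∅, by simp, by simp [Pool.Agent.TH603.Sur.cond], ?_⟩
  rw [coe_empty]
  exact Emp_empty _

/-- the rows of two points -/
theorem he2 : HE 2 := by
  intro m
  have h1 : Emp (fun _ : Fin 2 => m) (Rws (fun _ : Fin 2 => m) 0) := Emp_rows _ 0
  refine h1.comap 0 1 1 0 0 0 (by norm_num) ?_
  rintro ⟨x, y⟩ ⟨h1, h2, h3⟩
  simp only at h1 h2 h3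
  push_cast at h3
  obtain ⟨k, rfl⟩ := Int.eq_ofNat_of_zero_le h1
  refine ⟨by simp, by simp only; omega, ?_⟩
  simp only [sum_const, card_univ, Fintype.card_fin, smul_eq_mul, zero_add, zero_mul, one_mul,
    add_zero, Int.toNat_natCast]
  have hk : k ≤ m := by omega
  push_cast [Nat.cast_sub hk]
  omega

/-- the finite triangle for two points -/
def T2 (m : ℕ) : Finset (ℤ × ℤ) :=
  (range m).biUnion fun i => (range (2 * (m - i))).image fun j : ℕ => (((i : ℕ) : ℤ), (j : ℤ))

theorem mem_T2 {m : ℕ} {p : ℤ × ℤ} : p ∈ T2 m ↔ 0 ≤ p.1 ∧ 0 ≤ p.2 ∧ 2 * p.1 + p.2 < 2 * m := by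
  obtain ⟨x, y⟩ := p
  simp only [T2, mem_biUnion, mem_image, mem_range, Prod.mk.injEq]
  constructor
  · rintro ⟨i, hi, j, hj, rfl, rfl⟩
    refine ⟨by omega, by omega, by omega⟩
  · rintro ⟨h1, h2, h3⟩
    exact ⟨x.toNat, by omega, y.toNat, by omega, by omega, by omega⟩

theorem card_T2 (m : ℕ) : (T2 m).card = m * (m + 1) := by
  classical
  unfold T2
  rw [card_biUnion]
  · have h1 : ∀ i ∈ range m, ((range (2 * (m - i))).image
        fun j : ℕ => (((i : ℕ) : ℤ), (j : ℤ))).card = 2 * (m - i) := by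
      intro i _
      rw [card_image_of_injective, card_range]
      intro a a' h
      have := (Prod.mk.inj h).2
      omega
    rw [sum_congr rfl h1]
    have h2 : ∀ i ∈ range m, 2 * (m - i) = (fun j => 2 * (j + 1)) (m - 1 - i) := fun i hi => by
      rw [mem_range] at hi
      simp only
      omega
    rw [sum_congr rfl h2, Finset.sum_range_reflect (fun j => 2 * (j + 1)) m]
    clear h1 h2
    induction m with
    | zero => simp
    | succ m ih => rw [sum_range_succ, ih]; ring
  · intro b _ b' _ hne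
    rw [Function.onFun, disjoint_left]
    intro m hm hm'
    rw [mem_image] at hm hm'
    obtain ⟨a, _, rfl⟩ := hm
    obtain ⟨a', _, h⟩ := hm'
    apply hne
    have := (Prod.mk.inj h).1
    omega

theorem hs2 : HS 2 := by
  intro m
  refine ⟨T2 m, ?_, ?_, ?_⟩
  · intro p hp
    obtain ⟨h1, h2, h3⟩ := mem_T2.1 (mem_coe.1 hp)
    refine ⟨h1, h2, by omega, ?_⟩
    push_cast
    omega
  · rw [card_T2]
    simp only [Pool.Agent.TH603.Sur.cond, sum_const, card_univ, Fintype.card_fin, smul_eq_mul]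
    have h1 := Nat.choose_two_right (m + 1)
    have h2 : (m + 1) * (m + 1 - 1) = m * (m + 1) := by rw [Nat.add_sub_cancel]; ring
    rw [h2] at h1
    have h3 : Even (m * (m + 1)) := Nat.even_mul_succ_self m
    obtain ⟨k, hk⟩ := h3
    rw [hk] at h1 ⊢
    omega
  · refine (he2 m).mono ?_
    intro p hp
    obtain ⟨h1, h2, h3⟩ := mem_T2.1 (mem_coe.1 hp)
    refine ⟨h1, h2, ?_⟩
    push_cast
    omega

end Pool.Agent.TH760.EN
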