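import Pool.Agent.TH760.EN.Defs
import Pool.Agent.TH648.SH.Plane
import Pool.Agent.TH698.NagT3

/-! The emptiness end. -/

namespace Pool.Agent.TH760.EN

open Finset Pool.Agent.TH176.Nag Pool.Agent.TH603.Sur Pool.Agent.TH603.Cut Pool.Agent.TH181.NagM
open Pool.Agent.TH648.SH Filter Topology

/-- the right triangle of slope `a + c / 4` -/
def UU (a c m : ℕ) : Set (ℤ × ℤ) :=
  {p | 0 ≤ p.1 ∧ 0 ≤ p.2 ∧
    4 * p.1 + (4 * (a : ℤ) + c) * p.2 < 4 * (a : ℤ) * (2 * m + 1) + 2 * (c : ℤ) * m}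

theorem UU_finite {a c m : ℕ} (h : 1 ≤ 4 * a + c) : (UU a c m).Finite := by
  obtain ⟨N, hN⟩ : ∃ N : ℤ, N = 4 * (a : ℤ) * (2 * m + 1) + 2 * (c : ℤ) * m := ⟨_, rfl⟩
  apply Set.Finite.subset (Set.finite_Icc ((0, 0) : ℤ × ℤ) (N, N))
  rintro ⟨x, y⟩ ⟨h1, h2, h3⟩
  simp only at h1 h2 h3
  rw [← hN] at h3
  have h4 : (1 : ℤ) ≤ 4 * (a : ℤ) + c := by exact_mod_cast h
  have h5 : y ≤ (4 * (a : ℤ) + c) * y := by nlinarith
  rw [Set.mem_Icc, Prod.mk_le_mk, Prod.mk_le_mk]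
  exact ⟨⟨h1, h2⟩, by linarith, by linarith⟩

theorem Emp_UU {a c m : ℕ} (hac : 1 ≤ 4 * a + c) (h : Emp (fun _ : Fin c => m) (QQ c m)) :
    Emp (wt a c (2 * m + 1) m) (UU a c m) := by
  have hfin := UU_finite (m := m) hac
  have e : UU a c m = {p | p ∈ UU a c m ∧ p.1 + (a : ℤ) * p.2 < (a : ℤ) * (2 * m + 1)} ∪
      {p | p ∈ UU a c m ∧ (a : ℤ) * (2 * m + 1) ≤ p.1 + (a : ℤ) * p.2} := by
    ext p
    constructor
    · intro hp
      rcases lt_or_ge (p.1 + (a : ℤ) * p.2) ((a : ℤ) * (2 * m + 1)) with h1 | h1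
      · exact Or.inl ⟨hp, h1⟩
      · exact Or.inr ⟨hp, h1⟩
    · rintro (hp | hp) <;> exact hp.1
  rw [e]
  refine Pool.Agent.TH698.NagT3.Emp_cut (hfin.subset fun p hp => hp.1)
    (hfin.subset fun p hp => hp.1) (fun p hp => ⟨hp.1.1, hp.1.2.1⟩)
    (fun p hp => ⟨hp.1.1, hp.1.2.1⟩) 1 a ?_ ?_ ?_
  · rintro p ⟨_, h1⟩ q ⟨_, h2⟩
    linarith
  · refine (Emp_rows (fun _ : Fin a => 2 * m + 1) 0).mono ?_
    rintro ⟨x, y⟩ ⟨⟨h1, h2, h3⟩, h4⟩
    simp only at h1 h2 h3 h4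
    refine ⟨h2, h1, ?_⟩
    simp only [sum_const, card_univ, Fintype.card_fin, smul_eq_mul, zero_add]
    obtain ⟨k, rfl⟩ := Int.eq_ofNat_of_zero_le h2
    have hk : k ≤ 2 * m + 1 := by
      by_contra hc
      have h5 : (2 * (m : ℤ) + 2) ≤ k := by omega
      have ha : (0 : ℤ) ≤ a := Int.natCast_nonneg a
      have h6 : (a : ℤ) * (2 * m + 2) ≤ (a : ℤ) * k := mul_le_mul_of_nonneg_left h5 ha
      linarith
    simp only [Int.toNat_natCast]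
    push_cast [Nat.cast_sub hk]
    linarith
  · refine h.comap 1 a 0 1 (-((a : ℤ) * (2 * m + 1))) 0 (by norm_num) ?_
    rintro ⟨x, y⟩ ⟨⟨h1, h2, h3⟩, h4⟩
    simp only at h1 h2 h3 h4
    refine ⟨by simp only; linarith, by simp only; linarith, ?_⟩
    simp only
    linarith

theorem Emp_RegU {a c m : ℕ} (hac : 1 ≤ 4 * a + c) (h : Emp (fun _ : Fin c => m) (QQ c m))
    {α β ν : ℝ} (hν : 4 * ν = 4 * a + c)
    (hβ : β - α < a * (2 * m + 1) + (c : ℝ) * m / 2) :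
    Emp (wt a c (2 * m + 1) m) (Reg α β 0 ν) := by
  refine (Emp_UU hac h).comap 1 0 0 1 (-⌈α⌉) 0 (by norm_num) ?_
  rintro ⟨x, y⟩ ⟨h1, h2, h3⟩
  simp only [zero_mul, add_zero] at h1 h2 h3
  have h4 : ⌈α⌉ ≤ x := Int.ceil_le.2 h2
  refine ⟨by simp only; linarith, by simp only; linarith, ?_⟩
  simp only
  have h5 := Int.le_ceil α
  have h6 : ((4 * (1 * x + 0 * y + -⌈α⌉) + (4 * (a : ℤ) + c) * (0 * x + 1 * y + 0) : ℤ) : ℝ) <
      ((4 * (a : ℤ) * (2 * m + 1) + 2 * (c : ℤ) * m : ℤ) : ℝ) := by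
    push_cast
    have h7 : (4 * (a : ℝ) + c) * y = 4 * (ν * y) := by rw [← hν]; ring
    nlinarith
  exact_mod_cast h6

/-- **the emptiness end** -/
theorem endE {c : ℕ} (h : HE c) : EndE c := by
  intro a n m d hn hn36 hlt
  have hnR : (36 : ℝ) ≤ n := by exact_mod_cast hn36
  have hn4 : (n : ℝ) = 4 * a + c := by rw [hn]; push_cast; ring
  obtain ⟨s, hs⟩ : ∃ s : ℝ, s = √(n : ℝ) := ⟨_, rfl⟩
  have hs2 : s * s = n := by rw [hs]; exact Real.mul_self_sqrt (by linarith)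
  have hs6 : 6 ≤ s := by
    rw [hs]
    exact Real.le_sqrt_of_sq_le (by linarith)
  rw [← hs] at hlt
  have hs0 : 0 < s := by linarith
  obtain ⟨r, hr⟩ : ∃ r : ℝ, r = s / 2 := ⟨_, rfl⟩
  have hr3 : 3 ≤ r := by linarith
  have hr0 : 0 < r := by linarith
  have hr2 : 4 * r ^ 2 = 4 * a + c := by rw [hr, ← hn4, ← hs2]; ring
  obtain ⟨c', hc1, hc2⟩ : ∃ c' : ℝ, (d : ℝ) < c' ∧ c' < ((n : ℝ) * m + 2 * a) / s := by
    apply _root_.exists_between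
    rw [lt_div_iff₀ hs0]
    linarith
  rw [lt_div_iff₀ hs0] at hc2
  have hd0 : (0 : ℝ) ≤ d := Nat.cast_nonneg d
  have hEP : EP (wt a c (2 * m + 1) m) c' 0 (r ^ 2) := by
    refine ⟨by positivity, fun E hE0 hE α => ?_⟩
    rw [zero_add, Real.sqrt_sq hr0.le]
    refine Emp_RegU (by omega) (h m) hr2 ?_
    have h1 : E * r < c' * r := mul_lt_mul_of_pos_right hE hr0
    have h2 : c' * r = c' * s / 2 := by rw [hr]; ring
    have h3 : (n : ℝ) * m = 4 * a * m + c * m := by rw [hn4]; ring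
    linarith
  obtain ⟨k, τ, hk, h0, h1⟩ := exists_tau r
  have h2 := (Mv_tau hr3 k hk).closed EP_closed hEP
  apply Pool.Agent.TH603.EL.Emp_key h0 h1
  rcases Nat.eq_zero_or_pos d with hd | hd
  · subst hd
    obtain ⟨c2, hc1', hc2'⟩ : ∃ c2 : ℝ, 0 < c2 ∧ c2 < c' 
      := _root_.exists_between (by simpa using hc1)
    have h3 := h2.2 c2 hc1' hc2' 0
    refine h3.mono ?_
    rintro m' ⟨k1, k2, k3⟩
    refine ⟨k1, ?_, ?_⟩
    · simpa using k2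
    · have : 0 ≤ c2 * √(3 * (1 + τ) + 3 * (2 - τ)) := by positivity
      simp only [Nat.cast_zero, zero_mul] at k3
      linarith
  · have hd' : (0 : ℝ) < d := by exact_mod_cast hd
    have h3 := h2.2 d hd' hc1 (-((d : ℝ) * (1 + τ)))
    have e1 : 3 * (1 + τ) + 3 * (2 - τ) = (3 : ℝ) ^ 2 := by ring
    rw [e1, Real.sqrt_sq (by norm_num)] at h3
    have e2 : -((d : ℝ) * (1 + τ)) + d * 3 = d * (2 - τ) := by ring
    rw [e2] at h3
    exact h3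

end Pool.Agent.TH760.EN
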