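import Pool.Agent.TH760.EN.Three
import Pool.Agent.TH760.EN.EndE
import Pool.Agent.TH763.DB.Main
import Pool.Agent.TH641.EN.E
import Pool.Agent.TH335.EN.EndS
import Pool.Agent.TH938.Q5
import Pool.Agent.TH641.UM.Outer2
import Pool.Agent.TH387.SH.Tr

/-! Uniform fat points: every number `n ≥ 37` of general points. -/

namespace Pool.Agent.TH760.EN

open Finset Pool.Agent.TH176.Nag Pool.Agent.TH603.Sur Pool.Agent.H932R3 Pool.Agent.TH641.UM

/-- reindexing a constant vector -/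
theorem Emp_const {ι : Type} [Fintype ι] {m n : ℕ} (hn : Fintype.card ι = n) {w : ι → ℕ}
    (hw : ∀ i, w i = m) {S : Set (ℤ × ℤ)} (h : Emp w S) : Emp (fun _ : Fin n => m) S :=
  Emp_emb (Fintype.equivFinOfCardEq hn) (Fintype.equivFinOfCardEq hn).injective
    (fun i => (hw i).le) h

theorem cond_const {ι : Type} [Fintype ι] {m n : ℕ} (hn : Fintype.card ι = n) {w : ι → ℕ}
    (hw : ∀ i, w i = m) : Pool.Agent.TH603.Sur.cond w = n * (m + 1).choose 2 := by
  unfold Pool.Agent.TH603.Sur.cond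
  rw [sum_congr rfl (fun i _ => by rw [hw i] : ∀ i ∈ univ, (w i + 1).choose 2 = (m + 1).choose 2)]
  rw [sum_const, card_univ, hn, smul_eq_mul]

theorem Sur_const {ι : Type} [Fintype ι] {m n : ℕ} (hn : Fintype.card ι = n) {w : ι → ℕ}
    (hw : ∀ i, w i = m) {S : Set (ℤ × ℤ)} (h : Sur w S) : Sur (fun _ : Fin n => m) S := by
  obtain ⟨T, h1, h2, h3⟩ := h
  refine ⟨T, h1, ?_, Emp_const hn hw h3⟩
  rw [h2, cond_const hn hw, cond_const (Fintype.card_fin n) (fun _ => rfl)]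

theorem exists_ac {n : ℕ} (hn : 37 ≤ n) : ∃ a c : ℕ, n = 4 * a + c ∧ 8 ≤ a ∧ c ≤ 5 ∧
    EndE c ∧ EndS c := by
  have h3 : HE 3 := Pool.Agent.TH641.EN.HE_three
  rcases (by omega : n % 4 = 0 ∨ n % 4 = 1 ∨ n % 4 = 2 ∨ n % 4 = 3) with h | h | h | h
  · exact ⟨n / 4, 0, by omega, by omega, by omega, endE he0, Pool.Agent.TH335.EN.endS' hs0⟩
  · exact ⟨(n - 5) / 4, 5, by omega, by omega, by omega,
      endE (Pool.Agent.TH938.Q5.he5 he2 h3),
      Pool.Agent.TH335.EN.endS' (Pool.Agent.TH938.Q5.hs5 he2 h3)⟩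
  · exact ⟨n / 4, 2, by omega, by omega, by omega, endE he2, Pool.Agent.TH335.EN.endS' hs2⟩
  · exact ⟨n / 4, 3, by omega, by omega, by omega, endE h3,
      Pool.Agent.TH335.EN.endS' (hs3_of h3)⟩

/-- the critical degrees -/
theorem crit37 {n m : ℕ} (hn : 37 ≤ n) : CritE (4 / 3) n m := by
  intro d hd
  obtain ⟨a, c, hac, ha, hc, hE, hS⟩ := exists_ac hn
  have hnR : (37 : ℝ) ≤ n := by exact_mod_cast hn
  have hn4 : (n : ℝ) = 4 * a + c := by rw [hac]; push_cast; ring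
  have hcR : (c : ℝ) ≤ 5 := by exact_mod_cast hc
  obtain ⟨s, hs⟩ : ∃ s : ℝ, s = √(n : ℝ) := ⟨_, rfl⟩
  have hs2 : s * s = n := by rw [hs]; exact Real.mul_self_sqrt (by linarith)
  have hs6 : 6 ≤ s := by
    rw [hs]
    exact Real.le_sqrt_of_sq_le (by linarith)
  rw [← hs] at hd
  obtain ⟨hd1, hd2⟩ := abs_lt.1 hd
  have hs0 : 0 < s := by linarith
  have k1 := mul_lt_mul_of_pos_left hd1 hs0
  have k2 := mul_lt_mul_of_pos_left hd2 hs0
  have e1 : s * (2 * (d : ℝ) + 3 - s * (2 * m + 1)) = 2 * (s * d) + 3 * s - n * (2 * m + 1) := by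
    rw [← hs2]; ring
  rw [e1] at k1 k2
  have hEd : Emp (wt a c (2 * m + 1) m) (TZ d) := by
    refine hE a n m d hac (by omega) ?_
    rw [← hs]
    have e2 : (n : ℝ) * (2 * m + 1) = 2 * (n * m) + n := by ring
    rw [e2] at k2
    linarith
  have hSd : Sur (wt a c (2 * m) m) (TZ d) := by
    refine hS a n m d hac (by omega) ?_
    rw [← hs]
    have e2 : (n : ℝ) * (2 * m + 1) = 2 * (n * m) + n := by ring
    rw [e2] at k1
    have e3 : s * ((d : ℝ) + 3) = s * d + 3 * s := by ring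
    rw [e3]
    linarith
  have hD := Pool.Agent.TH763.DB.doubling (N := a) (m := m) (e := fun _ : Fin c => m) (by omega)
    (S := Pool.Agent.TH387.SH.TF d) (fun u hu => by
      have h1 : u ∈ TZ d := by rw [← Pool.Agent.TH387.SH.coe_TF]; exact mem_coe.2 hu
      exact ⟨h1.1, h1.2.1⟩)
    (by rw [Pool.Agent.TH387.SH.coe_TF]; exact hSd) (by rw [Pool.Agent.TH387.SH.coe_TF]; exact hEd)
  rw [Pool.Agent.TH387.SH.coe_TF, Pool.Agent.TH387.SH.card_TF] at hD
  have hcard : Fintype.card ((Fin a × (Fin 2 × Fin 2)) ⊕ Fin c) = n := by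
    simp only [Fintype.card_sum, Fintype.card_prod, Fintype.card_fin]
    omega
  have hw : ∀ i : (Fin a × (Fin 2 × Fin 2)) ⊕ Fin c,
      Sum.elim (fun _ : Fin a × (Fin 2 × Fin 2) => m) (fun _ : Fin c => m) i = m := by
    rintro (i | i) <;> rfl
  rw [cond_const hcard hw] at hD
  exact ⟨fun h => Emp_const hcard hw (hD.1 h), fun h => Sur_const hcard hw (hD.2 h)⟩

/-- **The uniform Harbourne-Hirschowitz conjecture for every `n ≥ 37`.** -/
theorem expDim37 {n : ℕ} (hn : 37 ≤ n) {m : ℕ} (hm : 1 ≤ m) {L : Type} [Field L] [CharZero L] :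
    ∃ F : MvPolynomial (Fin n × Fin 2) ℚ, F ≠ 0 ∧ ∀ (P : Fin n → Fin 2 → L),
      MvPolynomial.aeval (fun ij : Fin n × Fin 2 => P ij.1 ij.2) F ≠ 0 →
      ∀ d : ℕ, ExpDim L (fun _ => m) P d :=
  expDim_all_of_crit (by omega) hm fun _ => crit37 hn

end Pool.Agent.TH760.EN
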