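import Pool.Agent.TH603.Sur.Rows
import Pool.Agent.TH603.Sur.Forms

/-! The small triangles of slope `4 / c` which remain after the clusters of four are cut off. -/

namespace Pool.Agent.TH760.EN

open Pool.Agent.TH176.Nag Pool.Agent.TH603.Sur

/-- the small triangle, emptiness -/
def QQ (c m : ℕ) : Set (ℤ × ℤ) :=
  {p | 0 ≤ p.1 ∧ 0 ≤ p.2 ∧ 4 * p.1 + (c : ℤ) * p.2 < 2 * (c : ℤ) * (m : ℤ)}

/-- the small triangle, independence -/
def QS (c m : ℕ) : Set (ℤ × ℤ) :=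
  {p | 0 ≤ p.1 ∧ 0 ≤ p.2 ∧ p.2 < 2 * (m : ℤ) ∧
    4 * p.1 + (c : ℤ) * p.2 + 4 ≤ 2 * (c : ℤ) * (m : ℤ) + (c : ℤ)}

/-- emptiness of the small triangle for `c` points of multiplicity `m` -/
def HE (c : ℕ) : Prop := ∀ m : ℕ, Emp (fun _ : Fin c => m) (QQ c m)

/-- independence on the small triangle for `c` points of multiplicity `m` -/
def HS (c : ℕ) : Prop := ∀ m : ℕ, Sur (fun _ : Fin c => m) (QS c m)

/-- the weights: `a` points of multiplicity `M` and `c` points of multiplicity `m` -/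
def wt (a c M m : ℕ) : Fin a ⊕ Fin c → ℕ := Sum.elim (fun _ => M) (fun _ => m)

/-- the end `E` -/
def EndE (c : ℕ) : Prop := ∀ (a n m d : ℕ), n = 4 * a + c → 36 ≤ n →
  √(n : ℝ) * d < (n : ℝ) * m + 2 * a → Emp (wt a c (2 * m + 1) m) (TZ d)

/-- the end `S` -/
def EndS (c : ℕ) : Prop := ∀ (a n m d : ℕ), n = 4 * a + c → 36 ≤ n →
  (n : ℝ) * m + 2 * a + c < √(n : ℝ) * (d + 3) → Sur (wt a c (2 * m) m) (TZ d)

end Pool.Agent.TH760.EN
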