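import Pool.Agent.TH760.EN.Two

/-! The small triangle for three points: independence from emptiness. -/

namespace Pool.Agent.TH760.EN

open Finset Pool.Agent.TH176.Nag Pool.Agent.TH603.Sur

/-- the finite triangle for three points -/
def T3 (m : ℕ) : Finset (ℤ × ℤ) :=
  (range (2 * m)).biUnion fun t => (range ((3 * t + 6) / 4)).image
    fun i : ℕ => (((i : ℕ) : ℤ), (2 * (m : ℤ) - 1 - t))

theorem mem_T3 {m : ℕ} {p : ℤ × ℤ} : p ∈ T3 m ↔ 0 ≤ p.1 ∧ 0 ≤ p.2 ∧ 4 * p.1 + 3 * p.2 < 6 * m := by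
  obtain ⟨x, y⟩ := p
  simp only [T3, mem_biUnion, mem_image, mem_range, Prod.mk.injEq]
  constructor
  · rintro ⟨t, ht, i, hi, rfl, rfl⟩
    refine ⟨by omega, by omega, by omega⟩
  · rintro ⟨h1, h2, h3⟩
    exact ⟨(2 * (m : ℤ) - 1 - y).toNat, by omega, x.toNat, by omega, by omega, by omega⟩

theorem sum_T3 (m : ℕ) : 2 * ∑ t ∈ range (2 * m), (3 * t + 6) / 4 = 3 * (m * (m + 1)) := by
  induction m with
  | zero => simp
  | succ m ih =>
    have e : 2 * (m + 1) = 2 * m + 1 + 1 := by ring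
    rw [e, sum_range_succ, sum_range_succ, mul_add, mul_add, ih]
    have h1 : (3 * (2 * m) + 6) / 4 + (3 * (2 * m + 1) + 6) / 4 = 3 * (m + 1) := by omega
    have h2 : 3 * ((m + 1) * (m + 1 + 1)) = 3 * (m * (m + 1)) + 2 * (3 * (m + 1)) := by ring
    rw [h2, ← h1]
    ring

theorem card_T3 (m : ℕ) : (T3 m).card = 3 * (m + 1).choose 2 := by
  classical
  have hc : (T3 m).card = ∑ t ∈ range (2 * m), (3 * t + 6) / 4 := by
    unfold T3
    rw [card_biUnion]
    · refine sum_congr rfl fun t _ => ?_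
      rw [card_image_of_injective, card_range]
      intro a a' h
      have := (Prod.mk.inj h).1
      omega
    · intro b _ b' _ hne
      rw [Function.onFun, disjoint_left]
      intro p hp hp'
      rw [mem_image] at hp hp'
      obtain ⟨a, _, rfl⟩ := hp
      obtain ⟨a', _, h⟩ := hp'
      apply hne
      have := (Prod.mk.inj h).2
      omega
  have h1 := sum_T3 m
  rw [← hc] at h1
  have h2 := Nat.choose_two_right (m + 1)
  rw [Nat.add_sub_cancel] at h2
  obtain ⟨k, hk⟩ := Nat.even_mul_succ_self m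
  have h3 : (m + 1) * m = k + k := by rw [mul_comm]; exact hk
  rw [h3] at h2
  rw [hk] at h1
  omega

theorem hs3_of (h : HE 3) : HS 3 := by
  intro m
  refine ⟨T3 m, ?_, ?_, ?_⟩
  · intro p hp
    obtain ⟨h1, h2, h3⟩ := mem_T3.1 (mem_coe.1 hp)
    refine ⟨h1, h2, by omega, ?_⟩
    push_cast
    omega
  · rw [card_T3]
    simp only [Pool.Agent.TH603.Sur.cond, sum_const, card_univ, Fintype.card_fin, smul_eq_mul]
  · refine (h m).mono ?_
    intro p hp
    obtain ⟨h1, h2, h3⟩ := mem_T3.1 (mem_coe.1 hp)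
    refine ⟨h1, h2, ?_⟩
    push_cast
    omega

end Pool.Agent.TH760.EN
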